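import Pool.Agent.KQ.M.Defs
import Pool.Agent.KZ.Tr
import Pool.Agent.KZ.Sim

/-!
# KQ, many double points: induction on the number of variables

`StepB`, `NumB` are the statements of `B/Step`, `B/Num`.
-/

set_option autoImplicit false

namespace Pool.Agent.KQ

open Finset Pool.Agent.KZ

/-- The step: all triple points, `u'` double points, `w` simple points lie on a hyperplane, `y` double
points are used for the differential Horace method. -/
def StepB (c : ℕ) : Prop := ∃ n₀ : ℕ, ∀ n, n₀ ≤ n → ∀ t u₀ u' y w : ℕ, n ≤ u₀ →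
  6 * (t + u₀ + y) ≤ n * (n + 1) → mc n 3 ≤ (t + u₀) * n + y * ((n : ℤ) - 1) + u' →
  H0 c (n - 1) t u' (y + w) = 0 → H0 c n t (u₀ + u' + y) w = 0

/-- The numbers for the step. -/
def NumB : Prop := ∃ n₀ : ℕ, ∀ n, n₀ ≤ n → ∀ t u : ℕ, 6 * t ≤ n ^ 2 → n ^ 2 + 6 * n ≤ 2 * (u + t) →
  -(n : ℤ) ≤ v0 n t u 0 → ∃ u₀ u' y w : ℕ, u = u₀ + u' + y ∧ (w : ℤ) = max 0 (v0 n t u 0) ∧
    v0 (n - 1) t u' 0 = y + w ∧ y ≤ n ∧ 6 * t ≤ (n - 1) ^ 2 ∧ n ≤ u₀ ∧
    6 * (t + u₀ + y) ≤ n * (n + 1) ∧ mc n 3 ≤ (t + u₀) * n + y * ((n : ℤ) - 1) + u'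

theorem v0_u (n t u k : ℕ) : v0 n t (u + k) 0 = v0 n t u 0 - k * n := by
  unfold v0
  push_cast
  ring

/-- Fewer double points, a larger dimension. -/
theorem H0_mono_u (c n t u k : ℕ) : H0 c n t (u + k) 0 ≤ H0 c n t u 0 := by
  unfold H0
  have h : ms0 t (u + k) 0 = ms0 t u 0 + Multiset.replicate k (Kd.ord 2 ∅) := by
    unfold ms0
    rw [Multiset.replicate_add, Multiset.replicate_zero]
    abel
  rw [h]
  exact gM_anti _ _ _

/-- The virtual dimension without double points is negative or the number of double points can be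
reduced so that `- n ≤ v0`. -/
theorem reduce_u (c n : ℕ) (t u : ℕ)
    (h : ∀ u, -(n : ℤ) ≤ v0 n t u 0 → (H0 c n t u 0 : ℤ) ≤ max 0 (v0 n t u 0))
    (h0 : (H0 c n t 0 0 : ℤ) ≤ max 0 (v0 n t 0 0)) :
    (H0 c n t u 0 : ℤ) ≤ max 0 (v0 n t u 0) := by
  induction u with
  | zero => exact h0
  | succ u ih =>
    by_cases hv : -(n : ℤ) ≤ v0 n t (u + 1) 0
    · exact h _ hv
    · push Not at hv
      have h1 := v0_u n t u 1
      have h2 : v0 n t u 0 < 0 := by
        push_cast at h1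
        linarith
      have h3 := H0_mono_u c n t u 1
      rw [max_eq_left h2.le] at ih
      have h4 : (0 : ℤ) ≤ max 0 (v0 n t (u + 1) 0) := le_max_left _ _
      omega

/-- **Many double points**: exactness for at least `T₀` triple points. -/
theorem finB (c : ℕ) (hM : PROP0K c) (hS : StepB c) (hN : NumB) : ∃ T₀ : ℕ, ∀ t, T₀ ≤ t →
    ∀ n u : ℕ, 6 * t ≤ n ^ 2 → (H0 c n t u 0 : ℤ) ≤ max 0 (v0 n t u 0) := by
  obtain ⟨n₁, hM⟩ := hM 1
  obtain ⟨n₂, hS⟩ := hS
  obtain ⟨n₃, hN⟩ := hN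
  refine ⟨(n₁ + n₂ + n₃ + 6) ^ 2, fun t ht n => ?_⟩
  have hbig : ∀ n : ℕ, 6 * t ≤ n ^ 2 → n₁ + n₂ + n₃ + 6 ≤ n := by
    intro n hn
    by_contra hcon
    push Not at hcon
    have h1 : n ^ 2 < (n₁ + n₂ + n₃ + 6) ^ 2 := Nat.pow_lt_pow_left hcon (by norm_num)
    omega
  induction n with
  | zero =>
    intro u hn
    have := hbig 0 hn
    omega
  | succ n ih =>
    intro u hn
    have hb := hbig _ hn
    have hsmall : ∀ u, 2 * (u + t) < (n + 1) ^ 2 + 6 * (n + 1) →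
        (H0 c (n + 1) t u 0 : ℤ) ≤ max 0 (v0 (n + 1) t u 0) := by
      intro u hu
      refine hM (n + 1) (by omega) t u ?_ hn
      nlinarith
    refine reduce_u c (n + 1) t u ?_ (by
      by_cases h0 : 2 * (0 + t) < (n + 1) ^ 2 + 6 * (n + 1)
      · exact hsmall 0 h0
      · exfalso
        push Not at h0
        nlinarith)
    intro u hv
    by_cases hu : 2 * (u + t) < (n + 1) ^ 2 + 6 * (n + 1)
    · exact hsmall u hu
    push Not at hu
    obtain ⟨u₀, u', y, w, h1, h2, h3, h4, h5, h6, h7, h8⟩ := hN (n + 1) (by omega) t u hn hu hv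
    have h9 := ih u' (by simpa using h5)
    have h10 : n + 1 - 1 = n := rfl
    rw [h10] at h3
    rw [h3] at h9
    have h11 : (H0 c n t u' 0 : ℤ) ≤ y + w := by
      rwa [max_eq_right (by positivity)] at h9
    have h12 : H0 c n t u' (y + w) = 0 := by
      have h13 := H0_s c n t u' 0 (y + w)
      rw [zero_add] at h13
      rw [h13]
      omega
    have h13 := hS (n + 1) (by omega) t u₀ u' y w h6 h7 h8 h12
    rw [← h1] at h13
    have h14 := H0_s c (n + 1) t u 0 w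
    rw [zero_add, h13] at h14
    omega

end Pool.Agent.KQ
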