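import Pool.Agent.KZ.Num.N0

/-!
# KQ (B): the numbers of the hyperplane step
-/

set_option autoImplicit false

namespace Pool.Agent.KQ

open Finset Pool.Agent.KZ

theorem mc3 (n : ℕ) : 6 * mc n 3 = (n : ℤ) * (n + 1) * (n + 2) := by
  have h2 := two_mc2
  unfold mc at *
  induction n with
  | zero => simp
  | succ n ih =>
    have h3 := h2 (n + 1)
    rw [Nat.multichoose_succ_succ n 2]
    push_cast
    push_cast at ih h3
    nlinarith

theorem two_ch (t : ℕ) : 2 * ((t.choose 2 : ℕ) : ℤ) = (t : ℤ) * (t - 1) := by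
  induction t with
  | zero => simp
  | succ t ih =>
    rw [Nat.choose_succ_succ' t 1, Nat.choose_one_right]
    push_cast
    push_cast at ih
    linarith

theorem v0_24 (n t u : ℕ) : 24 * v0 n t u 0 = (n : ℤ) * (n + 1) * (n + 2) * (n + 3) -
    12 * t * ((n : ℤ) * (n + 1)) + 12 * ((t : ℤ) * (t - 1)) - 24 * u * n := by
  have h1 := Nm0.mc4 n
  have h2 := two_mc2 n
  have h3 := two_ch t
  unfold v0
  push_cast
  linear_combination h1 - 12 * (t : ℤ) * h2 + 12 * h3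

theorem numB : ∃ n₀ : ℕ, ∀ n, n₀ ≤ n → ∀ t u : ℕ, 6 * t ≤ n ^ 2 →
    n ^ 2 + 6 * n ≤ 2 * (u + t) → -(n : ℤ) ≤ v0 n t u 0 →
    ∃ u₀ u' y w : ℕ, u = u₀ + u' + y ∧ (w : ℤ) = max 0 (v0 n t u 0) ∧
      v0 (n - 1) t u' 0 = y + w ∧ y ≤ n ∧ 6 * t ≤ (n - 1) ^ 2 ∧ n ≤ u₀ ∧
      6 * (t + u₀ + y) ≤ n * (n + 1) ∧ mc n 3 ≤ (t + u₀) * n + y * ((n : ℤ) - 1) + u' := by
  refine ⟨100, fun n hn t u ht hu hv => ?_⟩
  obtain ⟨k, rfl⟩ : ∃ k, n = k + 1 := ⟨n - 1, by omega⟩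
  rw [Nat.add_sub_cancel]
  have e1 := v0_24 (k + 1) t u
  have e3 := mc3 (k + 1)
  set v : ℤ := v0 (k + 1) t u 0 with hvdef
  set S : ℤ := mc (k + 1) 3 with hS
  have hN : (100 : ℤ) ≤ k + 1 := by exact_mod_cast hn
  have ht' : 6 * (t : ℤ) ≤ ((k : ℤ) + 1) ^ 2 := by exact_mod_cast ht
  have hu' : ((k : ℤ) + 1) ^ 2 + 6 * ((k : ℤ) + 1) ≤ 2 * ((u : ℤ) + t) := by exact_mod_cast hu
  have ht0 : (0 : ℤ) ≤ t := Int.natCast_nonneg t
  have hu0 : (0 : ℤ) ≤ u := Int.natCast_nonneg u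
  push_cast at e1 e3 hv
  set D : ℤ := min v 0 + ((u : ℤ) + t) * (k + 1) - S with hD
  have hw0 : (0 : ℤ) ≤ max 0 v := le_max_left _ _
  have hmm : max 0 v + min v 0 = v := by
    rcases le_total v 0 with h | h
    · rw [max_eq_left h, min_eq_left h]
      ring
    · rw [max_eq_right h, min_eq_right h]
      ring
  have hmin : -((k : ℤ) + 1) ≤ min v 0 := le_min hv (by linarith)
  have hmin0 : min v 0 ≤ 0 := min_le_right _ _
  have hk99 : (99 : ℤ) ≤ k := by linarith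
  have hk : (0 : ℤ) < k := by linarith
  have hk2 : (0 : ℤ) ≤ (k : ℤ) ^ 2 := by positivity
  have hk3 : (0 : ℤ) ≤ (k : ℤ) ^ 3 := by positivity
  have g1 : (99 : ℤ) * k ≤ (k : ℤ) ^ 2 := by
    have := mul_le_mul_of_nonneg_right hk99 hk.le
    linarith
  have g2 : (99 : ℤ) * (k : ℤ) ^ 2 ≤ (k : ℤ) ^ 3 := by
    have := mul_le_mul_of_nonneg_right hk99 hk2
    linarith
  have g3 : (99 : ℤ) * (k : ℤ) ^ 3 ≤ (k : ℤ) ^ 4 := by
    have := mul_le_mul_of_nonneg_right hk99 hk3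
    linarith
  have hD0 : 0 ≤ D := by
    have h1 := mul_le_mul_of_nonneg_right hu' (show (0 : ℤ) ≤ k + 1 by linarith)
    have h2 : 0 ≤ 6 * D := by
      rw [hD]
      linarith
    linarith
  have hdm := Int.emod_add_mul_ediv D k
  have hy0 : 0 ≤ D % k := Int.emod_nonneg D hk.ne'
  have hyk : D % k < k := Int.emod_lt_of_pos D hk
  have hq0 : 0 ≤ D / k := Int.ediv_nonneg hD0 hk.le
  obtain ⟨y, hy⟩ := Int.eq_ofNat_of_zero_le hy0
  obtain ⟨u', hu1⟩ := Int.eq_ofNat_of_zero_le hq0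
  obtain ⟨w, hw⟩ := Int.eq_ofNat_of_zero_le hw0
  rw [hy] at hdm hyk
  rw [hu1] at hdm
  have hy1 : (y : ℤ) ≤ k - 1 := by linarith
  have hy2 : (0 : ℤ) ≤ y := Int.natCast_nonneg y
  have hTT : 12 * ((t : ℤ) * t) ≤ 2 * (t * ((k : ℤ) + 1) ^ 2) := by
    have := mul_le_mul_of_nonneg_left ht' ht0
    linarith
  have htk : (0 : ℤ) ≤ t * k := mul_nonneg ht0 hk.le
  have hroom : (u' : ℤ) + y + (k + 1) ≤ u := by
    by_contra hcon
    push Not at hcon
    have h1 : (u : ℤ) + 1 ≤ u' + y + (k + 1) := by linarith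
    have h2 := mul_le_mul_of_nonneg_left h1 hk.le
    have h3 : (k : ℤ) * u' = D - y := by linarith
    have h4 := mul_le_mul_of_nonneg_left hy1 hk.le
    have h5 : D ≤ ((u : ℤ) + t) * (k + 1) - S := by rw [hD]; linarith
    have h7 : S ≤ u + t * (k + 1) + k * (k - 1) + k * (k + 1) := by linarith
    have h8 := mul_le_mul_of_nonneg_left h7 (show (0 : ℤ) ≤ 24 * ((k : ℤ) + 1) by linarith)
    have h15 : 24 * ((k : ℤ) + 1) * S = 4 * ((k : ℤ) + 1) * ((k + 1) * (k + 1 + 1) * (k + 1 + 2)) := by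
      rw [← e3]
      ring
    have h9 : 12 * (t * ((k : ℤ) + 1) ^ 2) ≤ 2 * ((k : ℤ) + 1) ^ 4 := by
      have := mul_le_mul_of_nonneg_right ht' (show (0 : ℤ) ≤ 2 * ((k : ℤ) + 1) ^ 2 by positivity)
      linarith
    have h16 : 24 * ((k : ℤ) + 1) * (u + t * (k + 1) + k * (k - 1) + k * (k + 1)) =
        24 * u * (k + 1) + 24 * (t * ((k : ℤ) + 1) ^ 2) + 48 * (k + 1) * (k : ℤ) ^ 2 := by ring
    have h17 : 24 * (u : ℤ) * (k + 1) ≤ (k + 1) * (k + 1 + 1) * (k + 1 + 2) * (k + 1 + 3) -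
        12 * (t * ((k : ℤ) + 1) ^ 2) - 12 * (t * k) - 12 * t + 2 * (t * ((k : ℤ) + 1) ^ 2) - 12 * t +
        24 * (k + 1) := by
      have h18 : 12 * (t : ℤ) * ((k + 1) * (k + 1 + 1)) =
        12 * (t * ((k : ℤ) + 1) ^ 2) + 12 * (t * k) + 12 * t := by ring
      have h19 : 12 * ((t : ℤ) * (t - 1)) = 12 * (t * t) - 12 * t := by ring
      linarith
    have h20 : 4 * ((k : ℤ) + 1) * ((k + 1) * (k + 1 + 1) * (k + 1 + 2)) ≤
        (k + 1) * (k + 1 + 1) * (k + 1 + 2) * (k + 1 + 3) + 24 * (k + 1) +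
          48 * (k + 1) * (k : ℤ) ^ 2 + 14 * (t * ((k : ℤ) + 1) ^ 2) := by linarith
    have h21 : 14 * (t * ((k : ℤ) + 1) ^ 2) * 3 ≤ 7 * ((k : ℤ) + 1) ^ 4 := by linarith
    linarith
  have hsix : 6 * (t : ℤ) ≤ (k : ℤ) ^ 2 := by
    by_contra hcon
    push Not at hcon
    have h1 : (k : ℤ) ^ 2 + 1 ≤ 6 * t := by linarith
    have h2 := mul_le_mul_of_nonneg_left hu' (show (0 : ℤ) ≤ 12 * ((k : ℤ) + 1) by linarith)
    have h3 := mul_le_mul_of_nonneg_right h1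
      (show (0 : ℤ) ≤ 10 * (k : ℤ) ^ 2 + 8 * k - 2 by linarith)
    have h4 : 12 * (t : ℤ) * ((k + 1) * (k + 1 + 1)) =
        12 * (t * ((k : ℤ) + 1) ^ 2) + 12 * (t * k) + 12 * t := by ring
    have h5 : 12 * ((t : ℤ) * (t - 1)) = 12 * (t * t) - 12 * t := by ring
    have h6 : 6 * (t : ℤ) * (10 * (k : ℤ) ^ 2 + 8 * k - 2) =
        60 * (t * ((k : ℤ) + 1) ^ 2) - 72 * (t * k) - 72 * t := by ring
    have h7 : 12 * ((k : ℤ) + 1) * (2 * ((u : ℤ) + t)) =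
        24 * u * (k + 1) + 24 * (t * k) + 24 * t := by ring
    have h8 : -24 * ((k : ℤ) + 1) ≤ (k + 1) * (k + 1 + 1) * (k + 1 + 2) * (k + 1 + 3) -
        10 * (t * ((k : ℤ) + 1) ^ 2) + 12 * (t * k) + 12 * t -
        12 * ((k : ℤ) + 1) * (((k : ℤ) + 1) ^ 2 + 6 * ((k : ℤ) + 1)) := by linarith
    have h9 : ((k : ℤ) ^ 2 + 1) * (10 * (k : ℤ) ^ 2 + 8 * k - 2) ≤
        6 * (10 * (t * ((k : ℤ) + 1) ^ 2) - 12 * (t * k) - 12 * t) := by linarith
    linarith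
  have hk1 : (k : ℤ) * u' + y = D := by linarith
  refine ⟨u - u' - y, u', y, w, by omega, ?_, ?_, by omega, ?_, by omega, ?_, ?_⟩
  · exact hw.symm
  · have e2 := v0_24 k t u'
    have h1 : 24 * v0 k t u' 0 = 24 * ((y : ℤ) + w) := by
      have h2 : (y : ℤ) = D - k * u' := by linarith
      have h3 : (w : ℤ) = v - min v 0 := by linarith
      rw [h2, h3, hD, e2]
      linear_combination -e1 + 4 * e3
    linarith
  · exact_mod_cast hsix
  · have h0 : ((u - u' - y : ℕ) : ℤ) = u - u' - y := by omega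
    have h1 : 6 * ((t : ℤ) + (u - u' - y) + y) ≤ ((k : ℤ) + 1) * (k + 1 + 1) := by
      by_contra hcon
      push Not at hcon
      have h2 : ((k : ℤ) + 1) * (k + 1 + 1) + 1 ≤ 6 * (t + u - u') := by linarith
      have h3 := mul_le_mul_of_nonneg_left h2 hk.le
      have h4 : (k : ℤ) * (6 * (t + u - u')) = 6 * (k * (t + u)) - 6 * (D - y) := by
        rw [← hk1]
        ring
      have h5 : D = min v 0 + ((u : ℤ) + t) * (k + 1) - S := hD
      have h6 : 6 * ((k : ℤ) * (t + u)) - 6 * (D - y) =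
          6 * S - 6 * min v 0 - 6 * (u + t) + 6 * y := by
        rw [h5]
        ring
      rw [h4, h6] at h3
      linarith
    have h2 : 6 * ((t : ℤ) + ((u - u' - y : ℕ) : ℤ) + y) ≤ ((k : ℤ) + 1) * (k + 1 + 1) := by
      rw [h0]
      exact h1
    exact_mod_cast h2
  · have h0 : ((u - u' - y : ℕ) : ℤ) = u - u' - y := by omega
    rw [h0]
    push_cast
    have h1 : ((t : ℤ) + (u - u' - y)) * (k + 1) + y * (k + 1 - 1) + u' = S - min v 0 := by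
      have h2 : (y : ℤ) = D - k * u' := by linarith
      rw [h2, hD]
      ring
    linarith

end Pool.Agent.KQ
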