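import Pool.Agent.KQ.B.Geo

/-!
# KQ (B): the step, with numbers
-/

set_option autoImplicit false

namespace Pool.Agent.KQ

open Finset Pool.Agent.KZ Pool.Agent.H18.Ex Pool.Agent.H21.NX

theorem stepB (c : ℕ) : ∃ n₀ : ℕ, ∀ n, n₀ ≤ n → ∀ t u₀ u' y w : ℕ, n ≤ u₀ →
    6 * (t + u₀ + y) ≤ n * (n + 1) → mc n 3 ≤ (t + u₀) * n + y * ((n : ℤ) - 1) + u' →
    H0 c (n - 1) t u' (y + w) = 0 → H0 c n t (u₀ + u' + y) w = 0 := by
  obtain ⟨s₀, hcub⟩ := cubics
  refine ⟨s₀ + 2, fun n hn t u₀ u' y w hu₀ h6 hmc hH => ?_⟩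
  obtain ⟨s, rfl⟩ : ∃ s, n = s + 2 := ⟨n - 2, by omega⟩
  have hn1 : s + 2 - 1 = s + 1 := by omega
  rw [hn1] at hH
  have g1 := mc_two (s + 2)
  have g2 := mc_three (s + 2)
  have g3 := mc_three (s + 1)
  -- the numbers of forms
  have e1 : (s + 3).choose s = Nat.multichoose (s + 1) 3 := by
    rw [Nat.multichoose_eq, show s + 1 + 3 - 1 = s + 3 by omega]
    exact Nat.choose_symm_of_eq_add (by ring)
  have e2 : (s + 3).choose (s + 1) = Nat.multichoose (s + 2) 2 := by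
    rw [Nat.multichoose_eq, show s + 2 + 2 - 1 = s + 3 by omega]
    exact Nat.choose_symm_of_eq_add (by ring)
  obtain ⟨T, hT⟩ : ∃ T, T = t + u₀ + y := ⟨_, rfl⟩
  have hT1 : T * (s + 1) ≤ Nat.multichoose (s + 1) 3 := by
    have h1 : 6 * (T * (s + 1)) ≤ 6 * Nat.multichoose (s + 1) 3 := by
      have h2 : ((6 * Nat.multichoose (s + 1) 3 : ℕ) : ℤ) = ((s + 1) * (s + 2) * (s + 3) : ℕ) := by
        push_cast at g3 ⊢
        rw [g3]
        ring
      have h3 : 6 * Nat.multichoose (s + 1) 3 = (s + 1) * (s + 2) * (s + 3) := by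
        exact_mod_cast h2
      rw [h3]
      rw [← hT] at h6
      calc 6 * (T * (s + 1)) = 6 * T * (s + 1) := by ring
        _ ≤ (s + 2) * (s + 2 + 1) * (s + 1) := Nat.mul_le_mul_right _ h6
        _ = (s + 1) * (s + 2) * (s + 3) := by ring
    omega
  obtain ⟨τ, hτ⟩ := Nat.exists_eq_add_of_le hT1
  have hs3 : Nat.multichoose (s + 2) 3 = Nat.multichoose (s + 1) 3 + Nat.multichoose (s + 2) 2 :=
    Nat.multichoose_succ_succ (s + 1) 2
  have hkey : (τ : ℤ) + Nat.multichoose (s + 2) 2 ≤ (t + u₀) + u' := by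
    have h1 : mc (s + 2) 3 = (T * (s + 1) : ℤ) + τ + Nat.multichoose (s + 2) 2 := by
      show ((Nat.multichoose (s + 2) 3 : ℕ) : ℤ) = _
      rw [hs3, hτ]
      push_cast
      ring
    rw [h1, hT] at hmc
    push_cast at hmc
    nlinarith
  have hkey' : τ + Nat.multichoose (s + 2) 2 ≤ (t + u₀) + u' := by exact_mod_cast hkey
  have hmc2 : 2 * Nat.multichoose (s + 2) 2 = (s + 2) * (s + 3) := by
    have h1 : ((2 * Nat.multichoose (s + 2) 2 : ℕ) : ℤ) = ((s + 2) * (s + 3) : ℕ) := by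
      push_cast at g1 ⊢
      rw [g1]
      ring
    exact_mod_cast h1
  have h66 : 6 * (t + u₀) ≤ (s + 2) * (s + 3) := by
    refine le_trans (Nat.mul_le_mul_left 6 (Nat.le_add_right _ y)) h6
  have hbig : s + 2 + (t + u₀) ≤ Nat.multichoose (s + 2) 2 := by
    have h1 : 6 * (s + 2) ≤ 2 * ((s + 2) * (s + 3)) := by
      calc 6 * (s + 2) = 2 * ((s + 2) * 3) := by ring
        _ ≤ 2 * ((s + 2) * (s + 3)) := Nat.mul_le_mul_left _ (Nat.mul_le_mul_left _ (by omega))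
    omega
  have hm : u₀ + u' + y = u' + y + u₀ := by ring
  rw [show s + 2 = s + 1 + 1 by ring] at *
  rw [H0_iff] at hH
  rw [H0_iff, hm]
  refine hstep s t u' y u₀ w τ (by omega) hu₀ ?_ ?_ (by omega) hH
  · refine hcub s (by omega) (t + y + u₀) τ ?_
    rw [e1, hτ, hT]
    exact le_of_eq (by ring)
  · rw [e2]
    omega

end Pool.Agent.KQ
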