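import Pool.Agent.KZ.Base0
import Pool.Agent.KZ.Sim
import Pool.Agent.H21.NX.VOver
import Pool.Agent.H74.V7.FinB
import Pool.Agent.V7.Final

/-!
# KQ (B): the hyperplane Horace step with all triple points on the hyperplane

`(n; t, u)`: quartics in `n = s + 2` variables with `t` triple, `u = u' + y + u₀` double and `w` simple
points.  The triple points, `u'` double points and the simple points are put on the hyperplane, `y`
double points are differential.  Residual: cubics with `t` double points on the hyperplane, `y` points
where the restriction to the hyperplane is singular, `u'` simple points on the hyperplane, and `u₀` free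
double points.
-/

set_option autoImplicit false

namespace Pool.Agent.KQ

open Finset Pool.Agent.KZ Pool.Agent.H18.Ex Pool.Agent.H21.NX Pool.Agent.V7.ST
open Pool.Agent.H51.TB (Sys Gn)
open Pool.Agent.H18.Fat (fatForms ForGeneralPoints ImposesMaximalConditions)
open Pool.Agent.V7 (blk)

/-- `t` triple, `u` double, `w` simple points. -/
def m3 (t u w : ℕ) : Multiset ℕ :=
  Multiset.replicate t 3 + Multiset.replicate u 2 + Multiset.replicate w 1

/-- The bridge. -/
theorem H0_iff (c r t u w : ℕ) :
    H0 c (r + 1) t u w = 0 ↔ GM (Sx (Fin (r + 1)) 4) ((m3 t u w).map Kind.free) := by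
  obtain ⟨k, m, hm⟩ := multi_exists_fin (m3 t u w)
  have h1 : H0 c (r + 1) t u w = gdim r 4 m := by
    rw [← b0_gdim (blk c (r + 1)) m, gd_eq_gM]
    unfold H0
    congr 1
    have h2 : (univ : Finset (Fin k)).val.map (fun i => Kd.ord (m i) ∅) =
        ((univ : Finset (Fin k)).val.map m).map fun μ => Kd.ord μ ∅ := by
      rw [Multiset.map_map]
      rfl
    rw [h2, hm]
    unfold m3 ms0
    simp only [Multiset.map_add, Multiset.map_replicate]
  rw [h1, ← hm, Multiset.map_map]
  constructor
  · intro h
    obtain ⟨p, hp⟩ := GenBX.gdim_attained r 4 m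
    rw [h] at hp
    exact (GM_iff _ _).2 (GI_of_fat p m hp)
  · intro h
    exact gdim_of_GI m ((GM_iff _ _).1 h)

/-- Cubics with double and simple points (Alexander–Hirschowitz in large dimension). -/
theorem cubics : ∃ s₀ : ℕ, ∀ s, s₀ ≤ s → ∀ k τ : ℕ, (s + 3).choose s ≤ k * (s + 1) + τ →
    GM (Sx (Fin (s + 1)) 3) ((Multiset.replicate k 2 + Multiset.replicate τ 1).map Kind.free) := by
  obtain ⟨r₀, h⟩ := Pool.Agent.H74.V7.fixed_final Pool.Agent.V7.crit 3
  refine ⟨r₀, fun s hs k τ hk => ?_⟩
  obtain ⟨K, m, hm⟩ := multi_exists_fin (Multiset.replicate k 2 + Multiset.replicate τ 1)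
  have hmem : ∀ i, m i = 2 ∨ m i = 1 := by
    intro i
    have h1 : m i ∈ Multiset.replicate k 2 + Multiset.replicate τ 1 := by
      rw [← hm]
      exact Multiset.mem_map_of_mem _ (mem_univ i)
    rcases Multiset.mem_add.1 h1 with h2 | h2
    · exact Or.inl (Multiset.eq_of_mem_replicate h2)
    · exact Or.inr (Multiset.eq_of_mem_replicate h2)
  obtain ⟨G, hG, hGp⟩ := h s hs K m (fun i => by rcases hmem i with h | h <;> omega)
    (fun i j _ => by rcases hmem i with h | h <;> rcases hmem j with h' | h' <;> omega)
  obtain ⟨x, hx⟩ : ∃ x : Fin K × Fin (s + 1) → ℂ, MvPolynomial.eval x G ≠ 0 := by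
    by_contra hcon
    push Not at hcon
    exact hG (MvPolynomial.funext fun x => by rw [hcon x, map_zero])
  have h1 : ImposesMaximalConditions s 3 (fun i j => x (i, j)) m := hGp _ hx
  unfold ImposesMaximalConditions at h1
  have h2 : ∑ i, ((m i + s - 1).choose s : ℤ) = k * (s + 1) + τ := by
    have h3 : ∑ i, ((m i + s - 1).choose s : ℤ) =
        (((univ : Finset (Fin K)).val.map m).map fun μ => ((μ + s - 1).choose s : ℤ)).sum := by
      rw [Multiset.map_map]
      rfl
    rw [h3, hm, Multiset.map_add, Multiset.sum_add, Multiset.map_replicate, Multiset.map_replicate,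
      Multiset.sum_replicate, Multiset.sum_replicate]
    have h4 : (2 + s - 1).choose s = s + 1 := by
      rw [show 2 + s - 1 = s + 1 by omega, Nat.choose_succ_self_right]
    have h5 : (1 + s - 1).choose s = 1 := by
      rw [show 1 + s - 1 = s by omega, Nat.choose_self]
    rw [h4, h5]
    simp
  rw [h2, show 3 + s = s + 3 by ring] at h1
  have h6 : (((s + 3).choose s : ℕ) : ℤ) ≤ k * (s + 1) + τ := by exact_mod_cast hk
  rw [max_eq_left (by linarith)] at h1
  have h7 : Module.finrank ℂ (fatForms s 3 (fun i j => x (i, j)) m) = 0 := by exact_mod_cast h1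
  rw [← hm, Multiset.map_map]
  exact (GM_iff _ _).2 (GI_of_fat _ m h7)

/-- Quadrics with as many double points as variables. -/
theorem quadrics {ι : Type} [Fintype ι] [DecidableEq ι] (k : ℕ) (hk : Fintype.card ι ≤ k) :
    GM (Sx ι 2) (Multiset.replicate k (Kind.free 2)) := by
  refine GM.mono (S := Multiset.replicate (Fintype.card ι) (Kind.free 2))
    (Multiset.replicate_le_replicate _ |>.2 hk) ?_
  have h0 : Multiset.replicate (Fintype.card ι) (Kind.free 2 : Kind ι) =
      (univ : Finset ι).val.map fun _ => Kind.free 2 := by
    rw [Multiset.map_const', Finset.card_val, Finset.card_univ]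
  rw [h0, GM_iff]
  refine ⟨fun i => Pi.single i 1, fun f hf a ha => ?_⟩
  rw [mem_Sx] at ha
  -- `a = δ_i + δ_j`
  obtain ⟨i, hi⟩ : ∃ i, a i ≠ 0 := by
    by_contra hcon
    push Not at hcon
    rw [sum_eq_zero fun i _ => hcon i] at ha
    omega
  set b : ι → ℕ := Function.update a i (a i - 1) with hb
  have hbs : ∑ j, b j = 1 := by
    rw [hb, Finset.sum_update_of_mem (mem_univ i), Finset.sdiff_singleton_eq_erase]
    rw [← Finset.add_sum_erase univ a (mem_univ i)] at ha
    omega
  have h1 := hf i b (by
    show ∑ j, b j < 2
    omega)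
  rw [Finset.sum_eq_single a] at h1
  · have h2 : tcr ((Kind.free 2 : Kind ι).pt (Pi.single i 1 : ι → ℂ)) a b ≠ 0 := by
      unfold tcr
      refine prod_ne_zero_iff.2 fun j _ => ?_
      show (((a j).choose (b j) : ℕ) : ℂ) * (Pi.single i 1 : ι → ℂ) j ^ (a j - b j) ≠ 0
      by_cases hj : j = i
      · subst hj
        rw [hb, Function.update_self, Pi.single_eq_same, one_pow, mul_one]
        exact_mod_cast (Nat.choose_pos (Nat.sub_le _ _)).ne'
      · rw [hb, Function.update_of_ne hj, Nat.choose_self, Nat.sub_self, pow_zero]
        simp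
    rcases mul_eq_zero.1 h1 with h3 | h3
    · exact h3
    · exact absurd h3 h2
  · intro a' ha' hne
    rw [mem_Sx] at ha'
    have h2 : tcr ((Kind.free 2 : Kind ι).pt (Pi.single i 1 : ι → ℂ)) a' b = 0 := by
      by_contra hcon
      apply hne
      unfold tcr at hcon
      have h3 := fun j => prod_ne_zero_iff.1 hcon j (mem_univ j)
      have h4 : ∀ j, j ≠ i → a' j = b j := by
        intro j hj
        have h5 := h3 j
        have h6 : b j ≤ a' j := by
          by_contra h7
          push Not at h7
          rw [Nat.choose_eq_zero_of_lt h7, Nat.cast_zero, zero_mul] at h5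
          exact h5 rfl
        have h7 : a' j - b j = 0 := by
          by_contra h8
          have h9 : (Kind.free 2 : Kind ι).pt (Pi.single i 1 : ι → ℂ) j = 0 :=
            Pi.single_eq_of_ne hj 1
          rw [h9, zero_pow h8, mul_zero] at h5
          exact h5 rfl
        omega
      have h5 : a' i = a i := by
        rw [← Finset.add_sum_erase univ a' (mem_univ i)] at ha'
        rw [← Finset.add_sum_erase univ a (mem_univ i)] at ha
        have h6 : ∑ x ∈ univ.erase i, a' x = ∑ x ∈ univ.erase i, a x := by
          refine sum_congr rfl fun j hj => ?_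
          rw [h4 j (ne_of_mem_erase hj), hb, Function.update_of_ne (ne_of_mem_erase hj)]
        omega
      funext j
      by_cases hj : j = i
      · rw [hj, h5]
      · rw [h4 j hj, hb, Function.update_of_ne hj]
    rw [h2, mul_zero]
  · intro h2
    exact absurd (mem_Sx.2 ha) h2

/-- The residual. -/
theorem resid (s : ℕ) (l : Fin (s + 2)) (t u' y u₀ τ : ℕ) (hτ : τ ≤ u') (hu₀ : s + 2 ≤ u₀)
    (h3 : GM (Sx (Fin (s + 1)) 3)
      ((Multiset.replicate (t + y + u₀) 2 + Multiset.replicate τ 1).map Kind.free))
    (h2 : (s + 3).choose (s + 1) ≤ (u' - τ) + (t + u₀)) (h1 : s + 2 ≤ u' - τ) :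
    GM (Sx (Fin (s + 2)) 3) (fk l (Multiset.replicate t (2, 1) + Multiset.replicate u' (1, 1) +
      Multiset.replicate y (2, 2)) + (Multiset.replicate u₀ 2).map Kind.free) := by
  -- the simple points of the hyperplane
  have hb := GM.bridge (Sx (Fin (s + 2)) 3) (Sx (Fin (s + 2)) 2) l (Sx_resid 3 (by norm_num) l)
    (fk l (Multiset.replicate t (2, 1) + Multiset.replicate y (2, 2)) +
      (Multiset.replicate u₀ 2).map Kind.free) u'
  have hfk : fk l (Multiset.replicate t (2, 1) + Multiset.replicate u' (1, 1) +
      Multiset.replicate y (2, 2)) + (Multiset.replicate u₀ 2).map Kind.free =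
      fk l (Multiset.replicate t (2, 1) + Multiset.replicate y (2, 2)) +
      (Multiset.replicate u₀ 2).map Kind.free + Multiset.replicate u' (Kind.forced l 1 1) := by
    unfold fk
    simp only [Multiset.map_add, Multiset.map_replicate]
    ac_rfl
  rw [hfk]
  refine hb ?_ ?_
  · -- with free simple points
    have hst := stageH s l 3 (by norm_num) (Multiset.replicate t (2, 1) + Multiset.replicate y (2, 2))
      (Multiset.replicate u₀ 2 + Multiset.replicate τ 1) (Multiset.replicate (u' - τ) 1) 1 0 0 le_rfl
      (by
        intro x hx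
        rcases Multiset.mem_add.1 hx with h | h <;> rw [Multiset.eq_of_mem_replicate h] <;> norm_num)
      (by
        unfold trc
        simp only [Multiset.map_add, Multiset.map_replicate, Multiset.replicate_zero, add_zero]
        simp only [Multiset.map_add, Multiset.map_replicate, Multiset.replicate_add] at h3
        refine GM.mono (le_of_eq ?_) h3
        ac_rfl)
      (by
        have e1 : nxt (Multiset.replicate t (2, 1) + Multiset.replicate y (2, 2))
            (Multiset.replicate u₀ 2 + Multiset.replicate τ 1) 1 0 0 =
            Multiset.replicate (t + u₀) (1, 1) := by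
          have f1 : Multiset.filter (fun x : ℕ × ℕ => x.2 ≤ x.1) (Multiset.replicate t (1, 1)) =
              Multiset.replicate t (1, 1) := Multiset.filter_eq_self.2 fun x hx => by
            rw [Multiset.eq_of_mem_replicate hx]
          have f2 : Multiset.filter (fun x : ℕ × ℕ => x.2 ≤ x.1) (Multiset.replicate u₀ (1, 1)) =
              Multiset.replicate u₀ (1, 1) := Multiset.filter_eq_self.2 fun x hx => by
            rw [Multiset.eq_of_mem_replicate hx]
          have f3 : Multiset.filter (fun x : ℕ × ℕ => x.2 ≤ x.1) (Multiset.replicate y (1, 2)) = 0 :=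
            Multiset.filter_eq_nil.2 fun x hx => by
              rw [Multiset.eq_of_mem_replicate hx]
              norm_num
          have f4 : Multiset.filter (fun x : ℕ × ℕ => x.2 ≤ x.1) (Multiset.replicate τ (0, 1)) = 0 :=
            Multiset.filter_eq_nil.2 fun x hx => by
              rw [Multiset.eq_of_mem_replicate hx]
              norm_num
          unfold nxt
          simp only [Multiset.map_add, Multiset.map_replicate, Multiset.replicate_zero, add_zero,
            Multiset.filter_add]
          norm_num only
          rw [f1, f2, f3, f4, add_zero, add_zero, Multiset.replicate_add]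
        rw [e1]
        have hb2 := GM.bridge (Sx (Fin (s + 2)) 2) (Sx (Fin (s + 2)) 1) l
          (Sx_resid 2 (by norm_num) l) (Multiset.replicate (u' - τ) (Kind.free 1)) (t + u₀)
        have e2 : fk l (Multiset.replicate (t + u₀) (1, 1)) +
            (Multiset.replicate (u' - τ) 1).map Kind.free =
            Multiset.replicate (u' - τ) (Kind.free 1) +
              Multiset.replicate (t + u₀) (Kind.forced l 1 1) := by
          unfold fk
          simp only [Multiset.map_replicate]
          ac_rfl
        show GM (Sx (Fin (s + 2)) 2) _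
        rw [e2]
        refine hb2 ?_ ?_
        · have h4 := GM.of_card (Sx (Fin (s + 2)) 2) (Multiset.replicate ((u' - τ) + (t + u₀)) 1) 0
            (fun m hm => by rw [Multiset.eq_of_mem_replicate hm]) (by
              rw [Multiset.card_replicate, card_Sx (s + 1) 2]
              unfold ell
              rw [show 2 + 1 + (s + 1) - 1 = s + 3 by omega]
              exact h2)
          rw [add_zero, Multiset.map_replicate, Multiset.replicate_add] at h4
          exact h4
        · have h4 := GM.of_card (Sx (Fin (s + 2)) 1) (Multiset.replicate (u' - τ) 1) 0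
            (fun m hm => by rw [Multiset.eq_of_mem_replicate hm]) (by
              rw [Multiset.card_replicate, card_Sx (s + 1) 1]
              unfold ell
              rw [show 1 + 1 + (s + 1) - 1 = s + 2 by omega, Nat.choose_succ_self_right]
              exact h1)
          rw [add_zero, Multiset.map_replicate] at h4
          rw [Multiset.map_replicate]
          exact h4)
    rw [Multiset.replicate_zero, add_zero] at hst
    refine GM.mono (le_of_eq ?_) hst
    simp only [Multiset.map_add, Multiset.map_replicate]
    have e3 : Multiset.replicate u' (Kind.free 1 : Kind (Fin (s + 2))) =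
        Multiset.replicate τ (Kind.free 1) + Multiset.replicate (u' - τ) (Kind.free 1) := by
      rw [← Multiset.replicate_add]
      congr 1
      omega
    rw [e3]
    ac_rfl
  · refine GM.mono ?_ (quadrics (ι := Fin (s + 2)) u₀ (by rw [Fintype.card_fin]; exact hu₀))
    rw [Multiset.map_add]
    refine le_trans (le_of_eq ?_) (Multiset.le_add_left _ _)
    rw [Multiset.map_replicate, Multiset.map_replicate]
    rfl

/-- **The step.** -/
theorem hstep (s : ℕ) (t u' y u₀ w τ : ℕ) (hτ : τ ≤ u') (hu₀ : s + 2 ≤ u₀)
    (h3 : GM (Sx (Fin (s + 1)) 3)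
      ((Multiset.replicate (t + y + u₀) 2 + Multiset.replicate τ 1).map Kind.free))
    (h2 : (s + 3).choose (s + 1) ≤ (u' - τ) + (t + u₀)) (h1 : s + 2 ≤ u' - τ)
    (h4 : GM (Sx (Fin (s + 1)) 4) ((m3 t u' (y + w)).map Kind.free)) :
    GM (Sx (Fin (s + 2)) 4) ((m3 t (u' + y + u₀) w).map Kind.free) := by
  have hst := stageH s 0 4 (by norm_num) 0 (Multiset.replicate t 3 + Multiset.replicate w 1)
    (Multiset.replicate u₀ 2) 2 u' y (by norm_num) (fun x hx => absurd hx (Multiset.notMem_zero x))
    (by
      unfold trc
      unfold m3 at h4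
      simp only [Multiset.map_add, Multiset.map_replicate, Multiset.map_zero, zero_add]
      simp only [Multiset.map_add, Multiset.map_replicate, Multiset.replicate_add] at h4
      refine GM.mono (le_of_eq ?_) h4
      ac_rfl)
    (by
      have e1 : nxt 0 (Multiset.replicate t 3 + Multiset.replicate w 1) 2 u' y =
          Multiset.replicate t (2, 1) + Multiset.replicate u' (1, 1) +
            Multiset.replicate y (2, 2) := by
        have f1 : Multiset.filter (fun x : ℕ × ℕ => x.2 ≤ x.1) (Multiset.replicate t (2, 1)) =
            Multiset.replicate t (2, 1) := Multiset.filter_eq_self.2 fun x hx => by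
          rw [Multiset.eq_of_mem_replicate hx]
          norm_num
        have f2 : Multiset.filter (fun x : ℕ × ℕ => x.2 ≤ x.1) (Multiset.replicate u' (1, 1)) =
            Multiset.replicate u' (1, 1) := Multiset.filter_eq_self.2 fun x hx => by
          rw [Multiset.eq_of_mem_replicate hx]
        have f3 : Multiset.filter (fun x : ℕ × ℕ => x.2 ≤ x.1) (Multiset.replicate y (2, 2)) =
            Multiset.replicate y (2, 2) := Multiset.filter_eq_self.2 fun x hx => by
          rw [Multiset.eq_of_mem_replicate hx]
        have f4 : Multiset.filter (fun x : ℕ × ℕ => x.2 ≤ x.1) (Multiset.replicate w (0, 1)) = 0 :=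
          Multiset.filter_eq_nil.2 fun x hx => by
            rw [Multiset.eq_of_mem_replicate hx]
            norm_num
        unfold nxt
        simp only [Multiset.map_add, Multiset.map_replicate, Multiset.map_zero, zero_add,
          Multiset.filter_add]
        norm_num only
        rw [f1, f2, f3, f4, add_zero]
      rw [e1]
      exact resid s 0 t u' y u₀ τ hτ hu₀ h3 h2 h1)
  refine GM.mono (le_of_eq ?_) hst
  unfold m3 fk
  simp only [Multiset.map_add, Multiset.map_replicate, Multiset.map_zero, zero_add,
    Multiset.replicate_add]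
  ac_rfl

end Pool.Agent.KQ
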